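import Mathlib

/-!
# Smyth's theorem, algebraic part

`f`, `g` are the Taylor coefficients of two real functions which are analytic in the unit disc and
bounded by one (only the Hankel inequality `Contr` is used), `f = F g` with an integer power series
`F = 1 + F_k z^k + ..`, `F_k ≥ 1`, and `c = f 0 = g 0 ∈ (0, 1)`.  Then `c ^ 3 + c ^ 2 ≤ 1`, i.e.
`1 / c` is at least the real root `1.3247...` of `x ^ 3 = x + 1`.

* no coefficient of `F` between `k` and `2k`: test polynomials `1 + y z^k + z z^(2k)`;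
* the first further coefficient of `F` is at `l = k + m`, `0 < m < k`: test polynomials
  `1 + x z^m ± (q z^k + p z^l)` for `f` and `g`; all unknown coefficients cancel.
-/

set_option autoImplicit false

namespace Pool.Agent.H16.LK

open Finset

/-- Hankel form of contractivity for the Taylor coefficients `h` of an analytic function
bounded by one. -/
def Contr (h : ℕ → ℝ) : Prop :=
  ∀ (S : Finset ℕ) (p : ℕ → ℝ) (N : ℕ),
    |∑ i ∈ S, ∑ j ∈ S, if i + j ≤ N then p i * p j * h (N - (i + j)) else 0| ≤ ∑ i ∈ S, p i ^ 2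

lemma contr_two {h : ℕ → ℝ} (hh : Contr h) {k : ℕ} (hk : 0 < k) (x : ℝ) :
    |h k + 2 * x * h 0| ≤ 1 + x ^ 2 := by
  have := hh {0, k} (fun i => if i = 0 then 1 else x) k
  rw [Finset.sum_pair (by omega), Finset.sum_pair (by omega), Finset.sum_pair (by omega),
    Finset.sum_pair (by omega)] at this
  have hk0 : k ≠ 0 := by omega
  have h2 : ¬ (k + k ≤ k) := by omega
  simp only [hk0, h2, if_true, if_false, add_zero, zero_add, le_refl, Nat.zero_le, Nat.sub_zero,
    Nat.sub_self, one_mul, mul_one, one_pow] at this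
  calc |h k + 2 * x * h 0| = |h k + x * h 0 + (x * h 0)| := by ring_nf
    _ ≤ 1 + x ^ 2 := this

lemma contr_three {h : ℕ → ℝ} (hh : Contr h) {k : ℕ} (hk : 0 < k) (y z : ℝ) :
    |h (2 * k) + 2 * y * h k + (y ^ 2 + 2 * z) * h 0| ≤ 1 + y ^ 2 + z ^ 2 := by
  have := hh {0, k, 2 * k} (fun i => if i = 0 then 1 else if i = k then y else z) (2 * k)
  have hk0 : k ≠ 0 := by omega
  have h1 : (0 : ℕ) ∉ ({k, 2 * k} : Finset ℕ) := by simp; omega
  have h2 : k ≠ 2 * k := by omega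
  have h3 : 2 * k ≠ 0 := by omega
  have h4 : 2 * k ≠ k := by omega
  have h5 : k ≤ 2 * k := by omega
  have h6 : k + k ≤ 2 * k := by omega
  have h7 : ¬ (k + 2 * k ≤ 2 * k) := by omega
  have h8 : ¬ (2 * k + k ≤ 2 * k) := by omega
  have h9 : ¬ (2 * k + 2 * k ≤ 2 * k) := by omega
  have h10 : 2 * k - k = k := by omega
  have h11 : 2 * k - (k + k) = 0 := by omega
  simp only [Finset.sum_insert h1, Finset.sum_pair h2] at this
  simp only [hk0, h3, h4, h5, h6, h7, h8, h9, h10, h11, if_true, if_false, add_zero, zero_add,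
    le_refl, Nat.zero_le, Nat.sub_zero, Nat.sub_self, one_mul, mul_one, one_pow] at this
  refine le_trans (le_of_eq ?_) (this.trans (le_of_eq ?_))
  · congr 1
    ring
  · ring

lemma contr_four {h : ℕ → ℝ} (hh : Contr h) {k m : ℕ} (hm : 0 < m) (hk : m < k) (x q p : ℝ) :
    |h (k + m) + 2 * x * h k + 2 * q * h m + 2 * p * h 0 + x ^ 2 * h (k - m)
      + 2 * x * q * h 0| ≤ 1 + x ^ 2 + q ^ 2 + p ^ 2 := by
  have := hh {0, m, k, k + m}
    (fun i => if i = 0 then 1 else if i = m then x else if i = k then q else p) (k + m)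
  have a1 : (0 : ℕ) ∉ ({m, k, k + m} : Finset ℕ) := by simp; omega
  have a2 : m ∉ ({k, k + m} : Finset ℕ) := by simp; omega
  have a3 : k ≠ k + m := by omega
  simp only [Finset.sum_insert a1, Finset.sum_insert a2, Finset.sum_pair a3] at this
  have b1 : m ≠ 0 := by omega
  have b2 : k ≠ 0 := by omega
  have b3 : k + m ≠ 0 := by omega
  have b4 : k ≠ m := by omega
  have b5 : k + m ≠ m := by omega
  have b6 : k + m ≠ k := by omega
  have c1 : m ≤ k + m := by omega
  have c2 : k ≤ k + m := by omega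
  have c3 : m + m ≤ k + m := by omega
  have c4 : m + k ≤ k + m := by omega
  have c5 : ¬ (m + (k + m) ≤ k + m) := by omega
  have c6 : ¬ (k + k ≤ k + m) := by omega
  have c7 : ¬ (k + (k + m) ≤ k + m) := by omega
  have c8 : ¬ (k + m + m ≤ k + m) := by omega
  have c9 : ¬ (k + m + k ≤ k + m) := by omega
  have c10 : ¬ (k + m + (k + m) ≤ k + m) := by omega
  have d1 : k + m - m = k := by omega
  have d2 : k + m - k = m := by omega
  have d3 : k + m - (m + m) = k - m := by omega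
  have d4 : k + m - (m + k) = 0 := by omega
  simp only [b1, b2, b3, b4, b5, b6, c1, c2, c3, c4, c5, c6, c7, c8, c9, c10, d1, d2, d3, d4,
    if_true, if_false, add_zero, zero_add, le_refl, Nat.zero_le, Nat.sub_zero, Nat.sub_self,
    one_mul, mul_one, one_pow] at this
  refine le_trans (le_of_eq ?_) (this.trans (le_of_eq ?_))
  · congr 1
    ring
  · ring


lemma contr_abs {h : ℕ → ℝ} (hh : Contr h) {k : ℕ} (hk : 0 < k) :
    h k ≤ 1 - h 0 ^ 2 ∧ -(1 - h 0 ^ 2) ≤ h k := by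
  have h1 := abs_le.1 (contr_two hh hk (h 0))
  have h2 := abs_le.1 (contr_two hh hk (-h 0))
  constructor
  · nlinarith [h1.2]
  · nlinarith [h2.1]

lemma contr_second {h : ℕ → ℝ} (hh : Contr h) {k : ℕ} (hk : 0 < k) (c0 : 0 < h 0)
    (c1 : h 0 < 1) :
    h (2 * k) + h k ^ 2 / (1 - h 0) ≤ 1 - h 0 ^ 2 ∧
      -h (2 * k) + h k ^ 2 / (1 + h 0) ≤ 1 - h 0 ^ 2 := by
  have e1 : (1 : ℝ) - h 0 ≠ 0 := by linarith
  have e2 : (1 : ℝ) + h 0 ≠ 0 := by linarith
  constructor
  · have h1 := (abs_le.1 (contr_three hh hk (h k / (1 - h 0)) (h 0))).2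
    have e3 : h k ^ 2 / (1 - h 0) = 2 * (h k / (1 - h 0)) * h k
        + (h k / (1 - h 0)) ^ 2 * h 0 - (h k / (1 - h 0)) ^ 2 := by
      field_simp
      ring
    rw [e3]
    nlinarith [h1]
  · have h1 := (abs_le.1 (contr_three hh hk (-(h k / (1 + h 0))) (-h 0))).1
    have e3 : h k ^ 2 / (1 + h 0) = 2 * (h k / (1 + h 0)) * h k
        - (h k / (1 + h 0)) ^ 2 * h 0 - (h k / (1 + h 0)) ^ 2 := by
      field_simp
      ring
    rw [e3]
    nlinarith [h1]

/-- The quadratic in the extremal case. -/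
lemma case1 {c t : ℝ} (c0 : 0 < c) (c1 : c < 1) (ht : c - (1 - c ^ 2) ≤ t)
    (h : t + t ^ 2 / (1 - c) + (t - c) ^ 2 / (1 + c) ≤ 2 * (1 - c ^ 2)) :
    c ^ 3 + c ^ 2 ≤ 1 := by
  by_contra hc
  push Not at hc
  have e1 : (0 : ℝ) < 1 - c := by linarith
  have e2 : (0 : ℝ) < 1 + c := by linarith
  have h2 : 2 * t ^ 2 + (1 - c) ^ 2 * t + (1 - c) * c ^ 2 ≤ 2 * (1 - c ^ 2) ^ 2 := by
    have := mul_le_mul_of_nonneg_right h (mul_pos e1 e2).le
    have e3 : (t + t ^ 2 / (1 - c) + (t - c) ^ 2 / (1 + c)) * ((1 - c) * (1 + c))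
        = t * ((1 - c) * (1 + c)) + t ^ 2 * (1 + c) + (t - c) ^ 2 * (1 - c) := by
      field_simp
    rw [e3] at this
    nlinarith [this]
  have ht0 : 0 < c - (1 - c ^ 2) := by nlinarith
  have h3 : 2 * (c - (1 - c ^ 2)) ^ 2 + (1 - c) ^ 2 * (c - (1 - c ^ 2)) ≤
      2 * t ^ 2 + (1 - c) ^ 2 * t := by
    have : (c - (1 - c ^ 2)) ^ 2 ≤ t ^ 2 := by
      apply pow_le_pow_left₀ ht0.le ht
    nlinarith [mul_le_mul_of_nonneg_left ht (sq_nonneg (1 - c))]
  have h4 : (c ^ 3 + c ^ 2 - 1) * (c + 1) ≤ 0 := by nlinarith [h2, h3]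
  nlinarith [mul_pos (sub_pos.2 hc) (by linarith : (0 : ℝ) < c + 1)]

lemma big_c {c : ℝ} (c0 : 0 < c) (hc : 1 < c ^ 3 + c ^ 2) : 7548 / 10000 < c := by
  by_contra h
  push Not at h
  have h2 : c ^ 2 ≤ (7548 / 10000) ^ 2 := pow_le_pow_left₀ c0.le h 2
  have h3 : c ^ 3 ≤ (7548 / 10000) ^ 3 := pow_le_pow_left₀ c0.le h 3
  norm_num at h2 h3
  linarith

lemma case2_one {c s : ℝ} (c0 : 0 < c) (c1 : c < 1)
    (hP : ∀ x q p : ℝ, s + c + 2 * x * c + 4 * q * s + 4 * p * c + 4 * x * q * c ≤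
      2 * (1 + x ^ 2 + q ^ 2 + p ^ 2))
    (hM : ∀ x q p : ℝ, -(s + c + 2 * x * c + 4 * q * s + 4 * p * c + 4 * x * q * c) ≤
      2 * (1 + x ^ 2 + q ^ 2 + p ^ 2)) :
    c ^ 3 + c ^ 2 ≤ 1 := by
  by_contra hc
  push Not at hc
  have hb := big_c c0 hc
  have hD : 0 < 1 - c ^ 2 := by nlinarith
  have hD' : (1 - c ^ 2) ≠ 0 := hD.ne'
  set D := 1 - c ^ 2 with hDdef
  have h1 := hP (c * (1 + 2 * s) / (2 * D)) (s + c * (c * (1 + 2 * s) / (2 * D))) c
  have h2 := hM (-(c * (1 - 2 * s) / (2 * D))) (c * (c * (1 - 2 * s) / (2 * D)) - s) (-c)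
  have k1 : 2 * D * (s + c - 2 * D + 2 * s ^ 2) + c ^ 2 * (1 + 2 * s) ^ 2 ≤ 0 := by
    have e : s + c - 2 * D + 2 * s ^ 2 + c ^ 2 * (1 + 2 * s) ^ 2 / (2 * D) ≤ 0 := by
      set x := c * (1 + 2 * s) / (2 * D) with hx
      have hx2 : 2 * D * x = c * (1 + 2 * s) := by rw [hx]; field_simp
      have e1 : c ^ 2 * (1 + 2 * s) ^ 2 / (2 * D) = 2 * D * x ^ 2 := by
        rw [hx]; field_simp
      rw [e1]
      have e2 : D * x ^ 2 = x ^ 2 - c ^ 2 * x ^ 2 := by rw [hDdef]; ring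
      have e3 : 2 * D * x ^ 2 = c * (1 + 2 * s) * x := by rw [← hx2]; ring
      nlinarith [h1, e2, e3]
    have := mul_le_mul_of_nonneg_left e (by linarith : (0 : ℝ) ≤ 2 * D)
    have e4 : 2 * D * (s + c - 2 * D + 2 * s ^ 2 + c ^ 2 * (1 + 2 * s) ^ 2 / (2 * D))
        = 2 * D * (s + c - 2 * D + 2 * s ^ 2) + c ^ 2 * (1 + 2 * s) ^ 2 := by
      field_simp
    rw [e4] at this
    linarith
  have k2 : 2 * D * (-s - c - 2 * D + 2 * s ^ 2) + c ^ 2 * (1 - 2 * s) ^ 2 ≤ 0 := by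
    have e : -s - c - 2 * D + 2 * s ^ 2 + c ^ 2 * (1 - 2 * s) ^ 2 / (2 * D) ≤ 0 := by
      set x := c * (1 - 2 * s) / (2 * D) with hx
      have hx2 : 2 * D * x = c * (1 - 2 * s) := by rw [hx]; field_simp
      have e1 : c ^ 2 * (1 - 2 * s) ^ 2 / (2 * D) = 2 * D * x ^ 2 := by
        rw [hx]; field_simp
      rw [e1]
      have e2 : D * x ^ 2 = x ^ 2 - c ^ 2 * x ^ 2 := by rw [hDdef]; ring
      have e3 : 2 * D * x ^ 2 = c * (1 - 2 * s) * x := by rw [← hx2]; ring
      nlinarith [h2, e2, e3]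
    have := mul_le_mul_of_nonneg_left e (by linarith : (0 : ℝ) ≤ 2 * D)
    have e4 : 2 * D * (-s - c - 2 * D + 2 * s ^ 2 + c ^ 2 * (1 - 2 * s) ^ 2 / (2 * D))
        = 2 * D * (-s - c - 2 * D + 2 * s ^ 2) + c ^ 2 * (1 - 2 * s) ^ 2 := by
      field_simp
    rw [e4] at this
    linarith
  rw [hDdef] at k1 k2
  have k3 : -((527 / 1000) ^ 2 * (1 + c ^ 2) ^ 2) / 4 + 2 * (1 - c ^ 2) * (527 / 1000) * c
      - 4 * (1 - c ^ 2) ^ 2 + c ^ 2 ≤ 0 := by
    nlinarith [k1, k2, sq_nonneg (2 * s + (527 / 1000) * (1 + c ^ 2) / 2)]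
  nlinarith [k3, mul_pos (sub_pos.2 hb) (sub_pos.2 c1), mul_pos (mul_pos (sub_pos.2 hb) (sub_pos.2 c1)) c0,
    mul_pos (mul_pos (sub_pos.2 hb) (sub_pos.2 c1)) (mul_pos c0 c0)]


/-- three terms of the convolution -/
lemma conv3 {f g : ℕ → ℝ} {F : ℕ → ℤ} (h0 : F 0 = 1)
    (hfg : ∀ n, f n = ∑ i ∈ Finset.range (n + 1), (F i : ℝ) * g (n - i)) {k n : ℕ} (hk : 0 < k)
    (hkn : k < n) (hz : ∀ i, 0 < i → i < n → i ≠ k → F i = 0) :
    f n = g n + F k * g (n - k) + F n * g 0 := by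
  rw [hfg n]
  have hsub : ({0, k, n} : Finset ℕ) ⊆ Finset.range (n + 1) := by
    intro x hx
    simp only [Finset.mem_insert, Finset.mem_singleton] at hx
    simp only [Finset.mem_range]
    omega
  rw [← Finset.sum_subset hsub]
  · have a1 : (0 : ℕ) ∉ ({k, n} : Finset ℕ) := by simp; omega
    rw [Finset.sum_insert a1, Finset.sum_pair (by omega)]
    simp only [h0, Nat.sub_zero, Nat.sub_self, Int.cast_one, one_mul]
    ring
  · intro x hx hx'
    simp only [Finset.mem_insert, Finset.mem_singleton, not_or] at hx'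
    simp only [Finset.mem_range] at hx
    rw [hz x (by omega) (by omega) hx'.2.1]
    simp

lemma conv2 {f g : ℕ → ℝ} {F : ℕ → ℤ} (h0 : F 0 = 1)
    (hfg : ∀ n, f n = ∑ i ∈ Finset.range (n + 1), (F i : ℝ) * g (n - i)) {n : ℕ} (hn : 0 < n)
    (hz : ∀ i, 0 < i → i < n → F i = 0) :
    f n = g n + F n * g 0 := by
  rw [hfg n]
  have hsub : ({0, n} : Finset ℕ) ⊆ Finset.range (n + 1) := by
    intro x hx
    simp only [Finset.mem_insert, Finset.mem_singleton] at hx
    simp only [Finset.mem_range]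
    omega
  rw [← Finset.sum_subset hsub]
  · rw [Finset.sum_pair (by omega)]
    simp only [h0, Nat.sub_zero, Nat.sub_self, Int.cast_one, one_mul]
  · intro x hx hx'
    simp only [Finset.mem_insert, Finset.mem_singleton, not_or] at hx'
    simp only [Finset.mem_range] at hx
    rw [hz x (by omega) (by omega)]
    simp

lemma conv1 {f g : ℕ → ℝ} {F : ℕ → ℤ} (h0 : F 0 = 1)
    (hfg : ∀ n, f n = ∑ i ∈ Finset.range (n + 1), (F i : ℝ) * g (n - i)) {n : ℕ}
    (hz : ∀ i, 0 < i → i ≤ n → F i = 0) :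
    f n = g n := by
  rcases Nat.eq_zero_or_pos n with hn | hn
  · subst hn
    rw [hfg 0]
    simp [h0]
  · rw [conv2 h0 hfg hn (fun i h1 h2 => hz i h1 h2.le), hz n hn le_rfl]
    simp

/-- the case of a coefficient strictly between `k` and `2k` -/
lemma case2 {c s : ℝ} {a : ℤ} (c0 : 0 < c) (c1 : c < 1) (ha : 1 ≤ a) (hs : -(1 - c ^ 2) ≤ s)
    (hP : ∀ x q p : ℝ, s + a * c + 2 * x * c + 4 * q * s + 4 * p * c + 4 * x * q * c ≤
      2 * (1 + x ^ 2 + q ^ 2 + p ^ 2))
    (hM : ∀ x q p : ℝ, -(s + a * c + 2 * x * c + 4 * q * s + 4 * p * c + 4 * x * q * c) ≤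
      2 * (1 + x ^ 2 + q ^ 2 + p ^ 2)) :
    c ^ 3 + c ^ 2 ≤ 1 := by
  rcases ha.eq_or_lt with h1 | h2
  · rw [← h1] at hP hM
    push_cast at hP hM
    simp only [one_mul] at hP hM
    exact case2_one c0 c1 hP hM
  · have ha2 : (2 : ℝ) ≤ a := by exact_mod_cast h2
    by_contra hc
    push Not at hc
    have hb := big_c c0 hc
    have := hP 0 0 c
    nlinarith [mul_le_mul_of_nonneg_right ha2 c0.le, mul_pos (sub_pos.2 hb) c0]

/-- **Smyth's theorem**, algebraic part: `1 / M ≤ 1 / θ₀`. -/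
theorem smyth_alg {f g : ℕ → ℝ} {F : ℕ → ℤ} {c : ℝ} {k : ℕ} (hf : Contr f) (hg : Contr g)
    (hk : 0 < k) (h0 : F 0 = 1) (hF : ∀ j, 0 < j → j < k → F j = 0) (hFk : 1 ≤ F k)
    (hfg : ∀ n, f n = ∑ i ∈ Finset.range (n + 1), (F i : ℝ) * g (n - i)) (hc : g 0 = c)
    (c0 : 0 < c) (c1 : c < 1) : c ^ 3 + c ^ 2 ≤ 1 := by
  have hlow : ∀ j, j < k → f j = g j := fun j hj =>
    conv1 h0 hfg (fun i h1 h2 => hF i h1 (by omega))
  have hf0 : f 0 = c := by rw [hlow 0 hk, hc]
  have hfk : f k = g k + F k * c := by rw [conv2 h0 hfg hk hF, hc]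
  have bf := contr_abs hf hk
  have bg := contr_abs hg hk
  rw [hf0] at bf
  rw [hc] at bg
  rcases hFk.eq_or_lt with h1 | h2
  swap
  · -- `F k ≥ 2`
    have hF2 : (2 : ℝ) ≤ F k := by exact_mod_cast h2
    by_contra hcon
    push Not at hcon
    have hb := big_c c0 hcon
    nlinarith [mul_le_mul_of_nonneg_right hF2 c0.le, mul_pos (sub_pos.2 hb) c0]
  have hFk1 : F k = 1 := h1.symm
  rw [hFk1] at hfk
  push_cast at hfk
  rw [one_mul] at hfk
  by_cases hz : ∀ j, k < j → j < 2 * k → F j = 0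
  · -- no coefficient between `k` and `2k`
    have h2k : f (2 * k) = g (2 * k) + F k * g (2 * k - k) + F (2 * k) * g 0 := by
      refine conv3 h0 hfg hk (by omega) ?_
      intro i h1 h2 h3
      rcases lt_or_gt_of_ne h3 with h | h
      · exact hF i h1 h
      · exact hz i h h2
    rw [show 2 * k - k = k by omega, hFk1, hc] at h2k
    push_cast at h2k
    rw [one_mul] at h2k
    have cf := contr_second hf hk (by rw [hf0]; exact c0) (by rw [hf0]; exact c1)
    have cg := contr_second hg hk (by rw [hc]; exact c0) (by rw [hc]; exact c1)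
    rw [hf0] at cf
    rw [hc] at cg
    rcases le_or_gt (F (2 * k)) 0 with hA | hA
    · have hA' : (F (2 * k) : ℝ) ≤ 0 := by exact_mod_cast hA
      refine case1 (t := -g k) c0 c1 (by linarith [bf.1]) ?_
      have e1 : (-g k) ^ 2 / (1 - c) = g k ^ 2 / (1 - c) := by ring
      have e2 : (-g k - c) ^ 2 / (1 + c) = f k ^ 2 / (1 + c) := by rw [hfk]; ring
      rw [e1, e2]
      nlinarith [cf.2, cg.1, mul_nonneg (neg_nonneg.2 hA') c0.le]
    · have hA' : (1 : ℝ) ≤ F (2 * k) := by exact_mod_cast hA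
      refine case1 (t := f k) c0 c1 (by linarith [bg.2]) ?_
      have e2 : (f k - c) ^ 2 / (1 + c) = g k ^ 2 / (1 + c) := by rw [hfk]; ring
      rw [e2]
      nlinarith [cf.1, cg.2, mul_nonneg (sub_nonneg.2 hA') c0.le]
  · -- a coefficient between `k` and `2k`
    push Not at hz
    classical
    have hz' : ∃ j, k < j ∧ j < 2 * k ∧ F j ≠ 0 := by
      obtain ⟨j, a, b, d⟩ := hz
      exact ⟨j, a, b, d⟩
    obtain ⟨hl1, hl2, hl3⟩ := Nat.find_spec hz'
    set l := Nat.find hz' with hl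
    have hmin : ∀ i, k < i → i < l → F i = 0 := by
      intro i h1 h2
      by_contra h3
      exact Nat.find_min hz' h2 ⟨h1, by omega, h3⟩
    obtain ⟨m, hm⟩ : ∃ m, l = k + m := ⟨l - k, by omega⟩
    have hm0 : 0 < m := by omega
    have hmk : m < k := by omega
    have hfl : f l = g l + F k * g (l - k) + F l * g 0 := by
      refine conv3 h0 hfg hk hl1 ?_
      intro i h1 h2 h3
      rcases lt_or_gt_of_ne h3 with h | h
      · exact hF i h1 h
      · exact hmin i h h2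
    rw [hFk1, show l - k = m by omega, hc] at hfl
    push_cast at hfl
    rw [one_mul] at hfl
    have hfm : f m = g m := hlow m hmk
    have hfr : f (k - m) = g (k - m) := hlow (k - m) (by omega)
    have bm := contr_abs hg hm0
    rw [hc] at bm
    have key : ∀ x q p : ℝ, |g m + F l * c + 2 * x * c + 4 * q * g m + 4 * p * c
        + 4 * x * q * c| ≤ 2 * (1 + x ^ 2 + q ^ 2 + p ^ 2) := by
      intro x q p
      have t1 := contr_four hf hm0 hmk x q p
      have t2 := contr_four hg hm0 hmk x (-q) (-p)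
      rw [← hm, hf0, hfm, hfr, hfl, hfk] at t1
      rw [← hm, hc] at t2
      rw [abs_le] at t1 t2 ⊢
      constructor
      · linarith [t1.1, t2.2]
      · linarith [t1.2, t2.1]
    rcases lt_or_gt_of_ne hl3 with hneg | hpos
    · -- mirror image
      refine case2 (s := -g m) (a := -F l) c0 c1 (by omega) (by linarith [bm.1]) ?_ ?_
      · intro x q p
        have := (abs_le.1 (key (-x) q (-p))).1
        push_cast
        nlinarith [this]
      · intro x q p
        have := (abs_le.1 (key (-x) q (-p))).2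
        push_cast
        nlinarith [this]
    · refine case2 (s := g m) (a := F l) c0 c1 (by omega) bm.2 ?_ ?_
      · intro x q p
        exact (abs_le.1 (key x q p)).2
      · intro x q p
        have := (abs_le.1 (key x q p)).1
        linarith

end Pool.Agent.H16.LK
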